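import Pool.Agent.UMG.StmtsA

/-!
# Row SQM of UMG (helper75)
-/

set_option autoImplicit false

namespace Pool.Agent.UMG.H75

open Pool.Agent.UMG

theorem bn_mono (M j : ℕ) {i i' : ℕ} (h : i ≤ i') : Bn M j i ≤ Bn M j i' := by
  have h1 : Nat.sqrt ((M + 1) ^ 2 * j * i) ≤ Nat.sqrt ((M + 1) ^ 2 * j * i') :=
    Nat.sqrt_le_sqrt (Nat.mul_le_mul_left _ h)
  unfold Bn
  omega

theorem bn_pos (M j i : ℕ) : 0 < Bn M j i := by
  unfold Bn
  omega

/-- **SQM** -/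
theorem sqm : SqmStmt := by
  intro M j i i' h
  have hM : (0 : ℝ) < 2 * ((M : ℝ) + 1) := by positivity
  have h1 : (Bn M j i : ℝ) ≤ Bn M j i' := by exact_mod_cast bn_mono M j h
  have h2 : (0 : ℝ) < Bn M j i := by exact_mod_cast bn_pos M j i
  unfold sq
  exact ⟨div_pos h2 hM, div_le_div_of_nonneg_right h1 hM.le⟩

end Pool.Agent.UMG.H75
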